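import Pool.Agent.Lib_MP_2c23da_an.Proof

/-!
# Weakly compact perturbations of the identity and slice thickness indices

For every `ε > 0` there is a nonzero Banach space `X` (real or complex) whose two slice thickness
indices `T^s(X)` and `T^s_{w*}(X*)` vanish, while `‖T + I‖ ≥ 2 - ε` for every weakly compact
operator `T` of norm one.  The definitions are in `Pool.Agent.Lib_MP_2c23da_an.Defs`.
-/

set_option autoImplicit false

namespace Pool.Agent.Results.MP_2c23da_an.WeaklyCompactGap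

/-- **Main result.**  For every `ε > 0` there is a nonzero Banach space `X` over `𝕜` (real or
complex) such that `max {T^s(X), T^s_{w*}(X*)} = 0` while `W(X) ≥ 2 - ε`. -/
theorem result (𝕜 : Type) [RCLike 𝕜] (ε : ℝ) (hε : 0 < ε) :
    ∃ (X : Type) (_ : NormedAddCommGroup X) (_ : NormedSpace 𝕜 X),
      CompleteSpace X ∧ Nontrivial X ∧
      max (sliceThickness 𝕜 X) (weakStarSliceThickness 𝕜 X) = 0 ∧ 2 - ε ≤ W 𝕜 X := by
  wlog hε1 : ε ≤ 1 generalizing ε
  · obtain ⟨X, i1, i2, h1, h2, h3, h4⟩ := this 1 one_pos le_rfl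
    exact ⟨X, i1, i2, h1, h2, h3, by push Not at hε1; linarith⟩
  set x : ℝ := ε / 3 with hx
  have hx0 : 0 < x := by positivity
  have hx1 : x ≤ 1 / 3 := by rw [hx]; linarith
  set c : ℝ := 1 - x / 2 with hc
  set δ : ℝ := x / 4 with hδ
  have hc0 : 0 < c := by rw [hc]; linarith
  have hc1 : c < 1 := by rw [hc]; linarith
  have hδ0 : 0 < δ := by positivity
  -- the base space
  let e : C(unitInterval, 𝕜) := 1
  let es : StrongDual 𝕜 C(unitInterval, 𝕜) := ContinuousMap.evalCLM 𝕜 (0 : unitInterval)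
  have he : ‖e‖ = 1 := norm_one
  have hee : es e = 1 := rfl
  have hes : ‖es‖ ≤ 1 := by
    refine ContinuousLinearMap.opNorm_le_bound _ zero_le_one fun f => ?_
    rw [one_mul]
    exact f.norm_coe_le_norm 0
  obtain ⟨X, i1, i2, Φ, hcomp, hΦ, hΦb, hΦa⟩ := exists_renorm e es he hes hc0 hc1.le hδ0
  obtain ⟨h1, h2, h3⟩ := norm_functional e es hee he hc1.le Φ hΦ
  refine ⟨X, i1, i2, hcomp, ?_, ?_, ?_⟩
  · refine ⟨Φ e, 0, fun h => ?_⟩
    rw [h, norm_zero] at h1
    exact zero_ne_one h1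
  · rw [sliceThickness_eq_zero e es he hee hc1.le hδ0 (by positivity : 0 < 1 + 2 * δ) Φ hΦ hΦb,
      weakStarSliceThickness_eq_zero e es he hes hee hc0 hc1 hδ0 (by positivity : 0 < c⁻¹) Φ hΦ hΦa,
      max_self]
  · refine le_csInf ⟨_, (es ∘L (Φ.symm : X →L[𝕜] C(unitInterval, 𝕜))).smulRight (Φ e), ?_,
      rankOne_weaklyCompact _ _, rfl⟩ ?_
    · rw [ContinuousLinearMap.norm_smulRight_apply, h1, h2, mul_one]
    · rintro _ ⟨T, hT1, hT2, rfl⟩
      refine le_trans ?_ (norm_add_id_of_iso daugavet Φ (by positivity : 0 < c⁻¹)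
        (by positivity : 0 < 1 + 2 * δ) hΦb hΦa T hT1 hT2)
      have h4 : 1 - x ≤ (c⁻¹ * (1 + 2 * δ))⁻¹ := by
        rw [mul_inv, inv_inv, ← div_eq_mul_inv, le_div_iff₀ (by positivity)]
        rw [hδ, hc]
        nlinarith
      have h5 : 2 - ε = 2 - 3 * x := by rw [hx]; ring
      rw [h5]
      nlinarith

end Pool.Agent.Results.MP_2c23da_an.WeaklyCompactGap
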